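import Pool.Agent.W850.Ord.Fam

/-! Direct summands of the `ℓ`-adic realisations: convexity of Newton polygons, for one embedding `τ`. -/

set_option autoImplicit false
set_option linter.all false

namespace Pool.Agent.W850.Ord

open NumberField IsDedekindDomain Polynomial Filter Topology
open Pool.Agent.W401.Cheb Pool.Agent.W528.Ord Pool.Agent.R915.Ord

/-- The eigenvalues of the `ℓ`-adic matrix `M` are algebraic numbers, and under the embedding `τ` of the
field of algebraic numbers in `ℚ̄_ℓ` into `ℚ̄_p` their Newton polygon lies on or above the polygon with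
slopes `H`: the absolute value of the product of any `k` of them is at most `p ^ (-a)`, `a` the sum of
the `k` smallest elements of `H`. -/
def AboveTau {ℓ p : ℕ} [Fact ℓ.Prime] [Fact p.Prime] {r : ℕ} (M : Matrix (Fin r) (Fin r) ℚ_[ℓ])
    (τ : algebraicClosure ℚ (PadicAlgCl ℓ) →+* PadicAlgCl p) (H : Multiset ℕ) : Prop :=
  ∃ e : Multiset (algebraicClosure ℚ (PadicAlgCl ℓ)),
    e.map (algebraMap _ (PadicAlgCl ℓ)) = (M.charpoly.map (algebraMap ℚ_[ℓ] (PadicAlgCl ℓ))).roots ∧
    Multiset.card e = Multiset.card H ∧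
    ∀ s ≤ e, (s.map fun y => ‖τ y‖).prod ≤ (1 / (p : ℝ)) ^ polygon H (Multiset.card s)

theorem prod_max_eq (r : ℝ) (N : Multiset ℝ) :
    ∃ s ≤ N, (N.map fun x => max r x).prod = s.prod * r ^ (Multiset.card N - Multiset.card s) := by
  classical
  refine ⟨N.filter fun x => r < x, Multiset.filter_le _ _, ?_⟩
  induction N using Multiset.induction_on with
  | empty => simp
  | cons a N ih =>
    rw [Multiset.map_cons, Multiset.prod_cons, ih]
    have hle : Multiset.card (N.filter fun x => r < x) ≤ Multiset.card N :=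
      Multiset.card_le_card (Multiset.filter_le _ _)
    by_cases h : r < a
    · rw [Multiset.filter_cons_of_pos _ h, Multiset.prod_cons, Multiset.card_cons, Multiset.card_cons,
        max_eq_right h.le, Nat.add_sub_add_right]
      ring
    · rw [Multiset.filter_cons_of_neg _ h, Multiset.card_cons, max_eq_left (not_lt.mp h),
        show Multiset.card N + 1 - Multiset.card (N.filter fun x => r < x) =
          (Multiset.card N - Multiset.card (N.filter fun x => r < x)) + 1 by omega, pow_succ]
      ring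

theorem gauss_of_sub (q : ℝ) (hq : 0 < q) (N : Multiset ℝ) (H : Multiset ℕ)
    (hc : Multiset.card N = Multiset.card H)
    (h : ∀ s ≤ N, s.prod ≤ q ^ polygon H (Multiset.card s)) (r : ℝ) (hr : 0 < r) :
    (N.map fun x => max r x).prod ≤ (H.map fun a => max r (q ^ a)).prod := by
  obtain ⟨s, hs, he⟩ := prod_max_eq r N
  rw [he]
  have h1 := h s hs
  set k := Multiset.card s with hk
  have hkn : k ≤ Multiset.card N := Multiset.card_le_card hs
  set l := H.sort (· ≤ ·) with hl
  have hlen : l.length = Multiset.card H := by rw [hl]; simp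
  have hH : (H.map fun a => max r (q ^ a)).prod = (l.map fun a => max r (q ^ a)).prod := by
    conv_lhs => rw [← Multiset.sort_eq H (· ≤ ·)]
    rw [Multiset.map_coe, Multiset.prod_coe]
  have h5 : (l.map fun a => max r (q ^ a)).prod = ((l.take k).map fun a => max r (q ^ a)).prod *
      ((l.drop k).map fun a => max r (q ^ a)).prod := by
    rw [← List.prod_append, ← List.map_append, List.take_append_drop]
  rw [hH, h5]
  have h6 := prod_max_ge q r hq hr (l.take k)
  have h7 := prod_max_ge q r hq hr (l.drop k)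
  have h8 : (l.drop k).length = Multiset.card N - k := by
    rw [List.length_drop, hlen, hc]
  rw [h8] at h7
  exact mul_le_mul (h1.trans h6.1) h7.2.1 (by positivity) h6.2.2.le

theorem le_map {α β : Type*} (f : α → β) (e : Multiset α) (s : Multiset β) (h : s ≤ e.map f) :
    ∃ t ≤ e, t.map f = s := by
  induction e using Quotient.inductionOn with
  | h l =>
    induction s using Quotient.inductionOn with
    | h m =>
      simp only [Multiset.quot_mk_to_coe, Multiset.map_coe, Multiset.coe_le] at h ⊢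
      obtain ⟨m', h1, h2⟩ := h
      obtain ⟨l', h3, h4⟩ := List.sublist_map_iff.mp h2
      refine ⟨(l' : Multiset α), Multiset.coe_le.mpr h3.subperm, ?_⟩
      rw [Multiset.map_coe, ← h4]
      exact Multiset.coe_eq_coe.mpr h1

/-- **a direct summand of an ordinary realisation is ordinary** -/
theorem newtonTau_part {ℓ p : ℕ} [Fact ℓ.Prime] [Fact p.Prime] {r r₁ r₂ : ℕ}
    (V : Matrix (Fin r) (Fin r) ℚ_[ℓ]) (R : Matrix (Fin r₁) (Fin r₁) ℚ_[ℓ])
    (R' : Matrix (Fin r₂) (Fin r₂) ℚ_[ℓ]) (τ : algebraicClosure ℚ (PadicAlgCl ℓ) →+* PadicAlgCl p)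
    (H H₁ H₂ : Multiset ℕ) (hV : NewtonTau V τ H) (hch : V.charpoly = R.charpoly * R'.charpoly)
    (hH : H₁ + H₂ = H) (h1 : AboveTau R τ H₁) (h2 : AboveTau R' τ H₂) : NewtonTau R τ H₁ := by
  obtain ⟨e, he, heH⟩ := hV
  obtain ⟨e₁, he₁, hc₁, ha₁⟩ := h1
  obtain ⟨e₂, he₂, hc₂, ha₂⟩ := h2
  refine ⟨e₁, he₁, ?_⟩
  have hinj : Function.Injective (algebraMap (algebraicClosure ℚ (PadicAlgCl ℓ)) (PadicAlgCl ℓ)) :=
    fun x y h => Subtype.ext h
  have hne : (R.charpoly.map (algebraMap ℚ_[ℓ] (PadicAlgCl ℓ))) *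
      (R'.charpoly.map (algebraMap ℚ_[ℓ] (PadicAlgCl ℓ))) ≠ 0 :=
    ((R.charpoly_monic.map _).mul (R'.charpoly_monic.map _)).ne_zero
  have hsum : e = e₁ + e₂ := by
    apply Multiset.map_injective hinj
    rw [he, Multiset.map_add, he₁, he₂, hch, Polynomial.map_mul, roots_mul hne]
  have hp1 : (0 : ℝ) < p := by exact_mod_cast (Fact.out : p.Prime).pos
  have key := multiset_eq (1 / (p : ℝ)) 1 (by positivity) one_pos (e₁.map fun y => ‖τ y‖)
    (e₂.map fun y => ‖τ y‖) H₁ H₂ (by rw [Multiset.card_map, hc₁])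
    (gauss_of_sub _ (by positivity) _ _ (by rw [Multiset.card_map, hc₁]) ?_)
    (gauss_of_sub _ (by positivity) _ _ (by rw [Multiset.card_map, hc₂]) ?_) ?_
  · exact key
  · intro s hs
    obtain ⟨t, ht, rfl⟩ : ∃ t ≤ e₁, t.map (fun y => ‖τ y‖) = s := le_map _ _ _ hs
    rw [Multiset.card_map]
    exact ha₁ t ht
  · intro s hs
    obtain ⟨t, ht, rfl⟩ : ∃ t ≤ e₂, t.map (fun y => ‖τ y‖) = s := le_map _ _ _ hs
    rw [Multiset.card_map]
    exact ha₂ t ht
  · simp only [one_mul, Multiset.map_id']
    rw [← Multiset.map_add, ← Multiset.map_add, ← hsum, heH, ← hH]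

end Pool.Agent.W850.Ord
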