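import Pool.Agent.W850.Ord.Part

/-! The diagonal set of places of a number field. -/

set_option autoImplicit false
set_option linter.all false

namespace Pool.Agent.W850.Ord

open NumberField IsDedekindDomain Polynomial Filter Topology
open Pool.Agent.W401.Cheb Pool.Agent.W528.Ord Pool.Agent.R915.Ord

section

variable {K : Type} [Field K] [NumberField K]

/-- the number of places of norm at most `N` -/
noncomputable def tt (K : Type) [Field K] [NumberField K] (N : ℕ) : ℝ :=
  (Nat.card {v : HeightOneSpectrum (𝓞 K) // Ideal.absNorm v.asIdeal ≤ N} : ℝ)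

theorem tt_nonneg (N : ℕ) : 0 ≤ tt K N := by unfold tt; positivity

theorem tt_mono : Monotone (tt K) := by
  intro a b hab
  unfold tt
  have hsub : {v : HeightOneSpectrum (𝓞 K) | Ideal.absNorm v.asIdeal ≤ a} ⊆
      {v : HeightOneSpectrum (𝓞 K) | Ideal.absNorm v.asIdeal ≤ b} := fun v hv => le_trans hv hab
  exact_mod_cast Set.ncard_le_ncard hsub (Pool.Agent.W352.ChAbs.finite_le (K := K) b)

theorem tt_top : Tendsto (tt K) atTop atTop := by
  have h1 : Tendsto (fun N : ℕ => (Nat.primeCounting N : ℝ)) atTop atTop :=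
    tendsto_natCast_atTop_atTop.comp Nat.tendsto_primeCounting
  have h2 := (dens_true' (K := K)).eventually (lt_mem_nhds (show (1/2:ℝ) < 1 by norm_num))
  have h3 : Tendsto (fun N : ℕ => (1 / 2 : ℝ) * (Nat.primeCounting N : ℝ)) atTop atTop :=
    h1.const_mul_atTop (by norm_num)
  refine tendsto_atTop_mono' _ ?_ h3
  filter_upwards [h2, h1.eventually_gt_atTop 0] with N hN hN0
  rw [lt_div_iff₀ hN0] at hN
  exact hN.le

theorem ratio_cn (P : HeightOneSpectrum (𝓞 K) → Prop) (N : ℕ) :
    ratio P N = cn (fun v : HeightOneSpectrum (𝓞 K) => Ideal.absNorm v.asIdeal) P N / tt K N := rfl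

theorem bdd_below (P : HeightOneSpectrum (𝓞 K) → Prop) : IsBoundedUnder (· ≥ ·) atTop (ratio P) :=
  ⟨0, by
    rw [eventually_map]
    exact Eventually.of_forall fun N => ratio_nonneg P N⟩

theorem cobdd (P : HeightOneSpectrum (𝓞 K) → Prop) : IsCoboundedUnder (· ≥ ·) atTop (ratio P) :=
  IsBoundedUnder.isCoboundedUnder_ge ⟨1, by
      rw [eventually_map]
      exact Eventually.of_forall fun N => ratio_le_one P N⟩

theorem infinite_of_pos (P : HeightOneSpectrum (𝓞 K) → Prop) (h : 0 < lowerDensity P) :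
    {v | P v}.Infinite := by
  intro hf
  have h1 := ratio_tendsto P 0 (dens_finite P hf)
  unfold lowerDensity at h
  rw [h1.liminf_eq] at h
  exact lt_irrefl _ h

theorem lowerDensity_nonneg (P : HeightOneSpectrum (𝓞 K) → Prop) : 0 ≤ lowerDensity P := by
  unfold lowerDensity
  exact le_liminf_of_le (cobdd P) (Eventually.of_forall fun N => ratio_nonneg P N)

/-- **the diagonal construction for places of a number field** -/
theorem diagonal (D : ℕ → HeightOneSpectrum (𝓞 K) → Prop) (hD : ∀ n, 0 < lowerDensity (D n)) (c : ℝ)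
    (hc : ∀ n, c ≤ lowerDensity (D n)) :
    ∃ P : Set (HeightOneSpectrum (𝓞 K)), P.Infinite ∧ c ≤ lowerDensity (fun v => v ∈ P) ∧
      ∀ n₀, {v | v ∈ P ∧ ∀ n, n₀ ≤ n → ¬ D n v}.Finite := by
  have hlow : ∀ n, ∀ ε : ℝ, 0 < ε → ∀ᶠ N in atTop, (lowerDensity (D n) - ε) * tt K N ≤
      cn (fun v : HeightOneSpectrum (𝓞 K) => Ideal.absNorm v.asIdeal) (D n) N := by
    intro n ε hε
    have h4 : lowerDensity (D n) - ε < liminf (ratio (D n)) atTop := by
      change lowerDensity (D n) - ε < lowerDensity (D n)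
      linarith
    filter_upwards [eventually_lt_of_lt_liminf h4 (bdd_below (K := K) _),
      (tt_top (K := K)).eventually_gt_atTop (0 : ℝ)] with N hN hN0
    rw [ratio_cn, lt_div_iff₀ hN0] at hN
    exact hN.le
  have hup : ∀ n, ∀ ε : ℝ, 0 < ε → ∃ᶠ N in atTop,
      cn (fun v : HeightOneSpectrum (𝓞 K) => Ideal.absNorm v.asIdeal) (D n) N ≤
        (lowerDensity (D n) + ε) * tt K N := by
    intro n ε hε
    have h4 : liminf (ratio (D n)) atTop < lowerDensity (D n) + ε := by
      change lowerDensity (D n) < lowerDensity (D n) + ε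
      linarith
    have h5 := (frequently_lt_of_liminf_lt (cobdd (K := K) _) h4).and_eventually
      ((tt_top (K := K)).eventually_gt_atTop (0 : ℝ))
    refine h5.mono ?_
    rintro N ⟨hN, hN0⟩
    rw [ratio_cn, div_lt_iff₀ hN0] at hN
    exact hN.le
  obtain ⟨P, h1, h2, h3⟩ := glue (fun v : HeightOneSpectrum (𝓞 K) => Ideal.absNorm v.asIdeal)
    (fun n => Pool.Agent.W352.ChAbs.finite_le (K := K) n) D (fun n => lowerDensity (D n)) c
    (fun n => (hD n).le) hc (tt K) tt_mono tt_top tt_nonneg hlow hup (fun n => infinite_of_pos _ (hD n))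
  refine ⟨{v | P v}, h1, ?_, h3⟩
  apply le_of_forall_pos_le_add
  intro ε hε
  rw [← sub_le_iff_le_add]
  unfold lowerDensity
  refine le_liminf_of_le (cobdd (fun v : HeightOneSpectrum (𝓞 K) => v ∈ {v | P v})) ?_
  filter_upwards [h2 ε hε, (tt_top (K := K)).eventually_gt_atTop (0 : ℝ)] with N hN hN0
  rw [ratio_cn, le_div_iff₀ hN0]
  exact hN

end

end Pool.Agent.W850.Ord
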