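import Mathlib

/-! Gluing countably many sets of primes: the diagonal construction, with lower densities. -/

set_option autoImplicit false
set_option linter.all false

namespace Pool.Agent.W850.Ord

open Filter Topology

/-- the number of elements of norm at most `N` with the property `P` -/
noncomputable def cn {X : Type} (nrm : X → ℕ) (P : X → Prop) (N : ℕ) : ℝ :=
  ({x | nrm x ≤ N ∧ P x}.ncard : ℝ)

theorem cn_mono {X : Type} (nrm : X → ℕ) (hfin : ∀ n, {x | nrm x ≤ n}.Finite) (P Q : X → Prop)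
    (h : ∀ x, P x → Q x) {N M : ℕ} (hNM : N ≤ M) : cn nrm P N ≤ cn nrm Q M := by
  unfold cn
  have hsub : {x | nrm x ≤ N ∧ P x} ⊆ {x | nrm x ≤ M ∧ Q x} := fun x hx => ⟨hx.1.trans hNM, h x hx.2⟩
  exact_mod_cast Set.ncard_le_ncard hsub ((hfin M).subset fun x hx => hx.1)

/-- splitting at `M` -/
theorem cn_split {X : Type} (nrm : X → ℕ) (hfin : ∀ n, {x | nrm x ≤ n}.Finite) (P D : X → Prop)
    (M N : ℕ) (hMN : M ≤ N) (h : ∀ x, M < nrm x → nrm x ≤ N → D x → P x) :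
    cn nrm P M + (cn nrm D N - cn nrm D M) ≤ cn nrm P N := by
  unfold cn
  have h1 : {x | nrm x ≤ N ∧ D x} ⊆ {x | nrm x ≤ M ∧ D x} ∪ {x | (M < nrm x ∧ nrm x ≤ N) ∧ D x} := by
    rintro x ⟨hx, hd⟩
    by_cases hm : nrm x ≤ M
    · exact Or.inl ⟨hm, hd⟩
    · exact Or.inr ⟨⟨by omega, hx⟩, hd⟩
  have f2 : {x | (M < nrm x ∧ nrm x ≤ N) ∧ D x}.Finite := (hfin N).subset fun x hx => hx.1.2
  have f1 : {x | nrm x ≤ M ∧ D x}.Finite := (hfin M).subset fun x hx => hx.1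
  have f3 : {x | nrm x ≤ M ∧ P x}.Finite := (hfin M).subset fun x hx => hx.1
  have f4 : {x | nrm x ≤ N ∧ P x}.Finite := (hfin N).subset fun x hx => hx.1
  have h2 := (Set.ncard_le_ncard h1 (f1.union f2)).trans (Set.ncard_union_le _ _)
  have h3 : {x | nrm x ≤ M ∧ P x} ∪ {x | (M < nrm x ∧ nrm x ≤ N) ∧ D x} ⊆ {x | nrm x ≤ N ∧ P x} := by
    rintro x (⟨hx, hd⟩ | ⟨⟨hx, hx'⟩, hd⟩)
    · exact ⟨hx.trans hMN, hd⟩
    · exact ⟨hx', h x hx hx' hd⟩
  have h4 := Set.ncard_le_ncard h3 f4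
  have hdis : Disjoint {x | nrm x ≤ M ∧ P x} {x | (M < nrm x ∧ nrm x ≤ N) ∧ D x} := by
    rw [Set.disjoint_left]
    rintro x ⟨hx, -⟩ ⟨⟨hx', -⟩, -⟩
    omega
  rw [Set.ncard_union_eq hdis f3 f2] at h4
  have h2' : (({x | nrm x ≤ N ∧ D x}.ncard : ℕ) : ℝ) ≤ ({x | nrm x ≤ M ∧ D x}.ncard : ℝ) +
      ({x | (M < nrm x ∧ nrm x ≤ N) ∧ D x}.ncard : ℝ) := by exact_mod_cast h2
  have h4' : (({x | nrm x ≤ M ∧ P x}.ncard : ℕ) : ℝ) +
      ({x | (M < nrm x ∧ nrm x ≤ N) ∧ D x}.ncard : ℝ) ≤ ({x | nrm x ≤ N ∧ P x}.ncard : ℝ) := by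
    exact_mod_cast h4
  linarith

/-- dependent choice -/
theorem dep_choice (G : ℕ → ℕ → Prop) (S : ℕ → ℕ → ℕ → Prop) (h0 : ∃ m, G 0 m)
    (h : ∀ k m, G k m → ∃ m', G (k + 1) m' ∧ S k m m') :
    ∃ M : ℕ → ℕ, (∀ k, G k (M k)) ∧ ∀ k, S k (M k) (M (k + 1)) := by
  choose m0 hm0 using h0
  choose f hf1 hf2 using h
  let F : ∀ k, {m // G k m} := fun k => Nat.rec ⟨m0, hm0⟩ (fun k x => ⟨f k x.1 x.2, hf1 k x.1 x.2⟩) k
  exact ⟨fun k => (F k).1, fun k => (F k).2, fun k => hf2 k (F k).1 (F k).2⟩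

theorem glue {X : Type} (nrm : X → ℕ) (hfin : ∀ n, {x | nrm x ≤ n}.Finite) (D : ℕ → X → Prop)
    (d : ℕ → ℝ) (c : ℝ) (hd0 : ∀ n, 0 ≤ d n) (hc : ∀ n, c ≤ d n) (T : ℕ → ℝ) (hT : Monotone T)
    (hTop : Tendsto T atTop atTop) (hT0 : ∀ n, 0 ≤ T n)
    (hlow : ∀ n, ∀ ε : ℝ, 0 < ε → ∀ᶠ N in atTop, (d n - ε) * T N ≤ cn nrm (D n) N)
    (hup : ∀ n, ∀ ε : ℝ, 0 < ε → ∃ᶠ N in atTop, cn nrm (D n) N ≤ (d n + ε) * T N)
    (hinf : ∀ n, {x | D n x}.Infinite) :
    ∃ P : X → Prop, {x | P x}.Infinite ∧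
      (∀ ε : ℝ, 0 < ε → ∀ᶠ N in atTop, (c - ε) * T N ≤ cn nrm P N) ∧
      ∀ n₀, {x | P x ∧ ∀ n, n₀ ≤ n → ¬ D n x}.Finite := by
  set η : ℕ → ℝ := fun k => 1 / ((k : ℝ) + 1) with hη
  have hη0 : ∀ k, 0 < η k := fun k => by rw [hη]; positivity
  have hηm : ∀ k k', k ≤ k' → η k' ≤ η k := by
    intro k k' h
    have h1 : (k : ℝ) ≤ k' := by exact_mod_cast h
    exact one_div_le_one_div_of_le (by positivity) (by linarith)
  have hηl : ∀ ε : ℝ, 0 < ε → ∃ k, η k < ε := fun ε hε => exists_nat_one_div_lt hε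
  obtain ⟨M, hG, hS⟩ := dep_choice
    (fun k m => (∀ N, m ≤ N → (d k - η k) * T N ≤ cn nrm (D k) N) ∧
      cn nrm (D k) m ≤ (d k + η k) * T m)
    (fun k m m' => m < m' ∧ (d k + η k) * T m ≤ η k * T m' ∧ ∃ x, D k x ∧ m < nrm x ∧ nrm x ≤ m')
    (by
      have h1 := hlow 0 (η 0) (hη0 0)
      rw [eventually_atTop] at h1
      obtain ⟨a, ha⟩ := h1
      have h2 := (hup 0 (η 0) (hη0 0)).and_eventually (eventually_ge_atTop a)
      obtain ⟨m, hm, hma⟩ := h2.exists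
      exact ⟨m, fun N hN => ha N (hma.trans hN), hm⟩)
    (by
      rintro k m -
      have h1 := hlow (k + 1) (η (k + 1)) (hη0 _)
      rw [eventually_atTop] at h1
      obtain ⟨a, ha⟩ := h1
      obtain ⟨x, hx, hxm⟩ : ∃ x, D k x ∧ m < nrm x := by
        by_contra hcon
        push Not at hcon
        exact hinf k ((hfin m).subset fun x hx => hcon x hx)
      have h3 : ∀ᶠ N in atTop, (d k + η k) * T m / η k ≤ T N := hTop.eventually_ge_atTop _
      have h2 := (hup (k + 1) (η (k + 1)) (hη0 _)).and_eventually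
        ((eventually_ge_atTop a).and ((eventually_gt_atTop m).and ((eventually_ge_atTop (nrm x)).and h3)))
      obtain ⟨m', hm, hma, hmm, hmx, hT'⟩ := h2.exists
      refine ⟨m', ⟨fun N hN => ha N (hma.trans hN), hm⟩, hmm, ?_, x, hx, hxm, hmx⟩
      rw [div_le_iff₀ (hη0 k)] at hT'
      linarith)
  have hMs : StrictMono M := strictMono_nat_of_lt_succ fun k => (hS k).1
  set P : X → Prop := fun x => ∃ n, M n < nrm x ∧ nrm x ≤ M (n + 1) ∧ D n x with hP
  refine ⟨P, ?_, ?_, ?_⟩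
  · intro hf
    obtain ⟨B, hB⟩ := (hf.image nrm).bddAbove
    obtain ⟨x, hx, h1, h2⟩ := (hS B).2.2
    have h3 : nrm x ≤ B := hB ⟨x, ⟨B, h1, h2, hx⟩, rfl⟩
    have h4 := hMs.le_apply (x := B)
    omega
  · -- the value at the thresholds
    have key : ∀ k N, M k ≤ N → N ≤ M (k + 1) →
        cn nrm P (M k) + (cn nrm (D k) N - cn nrm (D k) (M k)) ≤ cn nrm P N := by
      intro k N h1 h2
      exact cn_split nrm hfin P (D k) (M k) N h1 fun x hx hx' hd => ⟨k, hx, hx'.trans h2, hd⟩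
    have hth : ∀ k, (c - 2 * η k) * T (M (k + 1)) ≤ cn nrm P (M (k + 1)) := by
      intro k
      have h1 := key k (M (k + 1)) (hMs.monotone (Nat.le_succ k)) le_rfl
      have h2 := (hG k).1 (M (k + 1)) (hMs.monotone (Nat.le_succ k))
      have h3 := (hG k).2
      have h4 := (hS k).2.1
      have h5 : 0 ≤ cn nrm P (M k) := by unfold cn; positivity
      have h6 : c * T (M (k + 1)) ≤ d k * T (M (k + 1)) := mul_le_mul_of_nonneg_right (hc k) (hT0 _)
      nlinarith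
    have hmid : ∀ k N, M (k + 1) ≤ N → N ≤ M (k + 2) → (c - 4 * η k) * T N ≤ cn nrm P N := by
      intro k N h1 h2
      have h3 := key (k + 1) N h1 h2
      have h4 := hth k
      have h5 := (hG (k + 1)).1 N h1
      have h6 := (hG (k + 1)).2
      have h7 := hηm k (k + 1) (Nat.le_succ k)
      have h8 := hT h1
      have h9 := hT0 (M (k + 1))
      have h10 := hT0 N
      have h11 := hη0 (k + 1)
      have h12 := hη0 k
      have h13 := hc (k + 1)
      have h14 : (d (k + 1) - c + η (k + 1) + 2 * η k) * T (M (k + 1)) ≤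
          (d (k + 1) - c + η (k + 1) + 2 * η k) * T N :=
        mul_le_mul_of_nonneg_left h8 (by linarith)
      have h15 : (c - 4 * η k) * T N ≤ (c - 2 * η (k + 1) - 2 * η k) * T N :=
        mul_le_mul_of_nonneg_right (by linarith) h10
      nlinarith
    intro ε hε
    obtain ⟨k, hk⟩ := hηl (ε / 4) (by positivity)
    rw [eventually_atTop]
    refine ⟨M (k + 1), fun N hN => ?_⟩
    -- the block of `N`
    obtain ⟨j, hj1, hj2⟩ : ∃ j, M (k + 1 + j) ≤ N ∧ N ≤ M (k + 1 + j + 1) := by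
      have hex : ∃ j, N ≤ M (k + 1 + j + 1) := ⟨N, (hMs.le_apply (x := N)).trans
        (hMs.monotone (by omega))⟩
      classical
      refine ⟨Nat.find hex, ?_, Nat.find_spec hex⟩
      rcases Nat.eq_zero_or_pos (Nat.find hex) with h0 | h0
      · rw [h0]; exact hN
      · have h1 := Nat.find_min hex (m := Nat.find hex - 1) (by omega)
        push Not at h1
        rw [show k + 1 + (Nat.find hex - 1) + 1 = k + 1 + Nat.find hex by omega] at h1
        exact h1.le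
    have h1 := hmid (k + j) N (by rw [show k + j + 1 = k + 1 + j by ring]; exact hj1)
      (by rw [show k + j + 2 = k + 1 + j + 1 by ring]; exact hj2)
    have h2 := hηm k (k + j) (by omega)
    refine le_trans (mul_le_mul_of_nonneg_right ?_ (hT0 N)) h1
    linarith
  · intro n₀
    refine (hfin (M n₀)).subset ?_
    rintro x ⟨⟨n, h1, h2, h3⟩, h4⟩
    have h5 : n < n₀ := by
      by_contra hcon
      exact h4 n (by omega) h3
    exact h2.trans (hMs.monotone (by omega))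

end Pool.Agent.W850.Ord
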