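import Pool.Agent.R915.O3
import Pool.Agent.W850.Ord.Glue

/-! Families of motives with their own finite sets of bad residue characteristics. -/

set_option autoImplicit false
set_option linter.all false

namespace Pool.Agent.W850.Ord

open NumberField IsDedekindDomain Polynomial Filter Topology
open Pool.Agent.W401.Cheb Pool.Agent.W528.Ord Pool.Agent.R915.Ord
open MultSystem (mv IsDeg1 IsOver norm_mem)
open MotSystem (admProportion admProportion_pos bad_dens fixU fixU_normal fixU_open adm_conj adm_fix)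

section family

variable {K : Type} [Field K] [NumberField K] {ℓ : ℕ} [Fact ℓ.Prime] {ι : Type} [Fintype ι]
  (A : ι → MotSystem K ℓ) (χ : GK K →* (PadicAlgCl ℓ)ˣ)
  (S : ι → Finset ℕ) (hA : ∀ i, (A i).IsMotive χ (S i))

/-- all pieces are ordinary at `v` -/
def Good (A : ι → MotSystem K ℓ) (S : ι → Finset ℕ) (v : HeightOneSpectrum (𝓞 K)) : Prop :=
  (Ideal.absNorm v.asIdeal).Prime ∧ (∀ i, Ideal.absNorm v.asIdeal ∉ S i) ∧
    ∃ Q : Ideal (𝓞 (AlgebraicClosure K)), IsOver Q v ∧ NoExcess A v Q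

include hA in
theorem main_good' :
    Tendsto (dens fun v : HeightOneSpectrum (𝓞 K) =>
      ((Ideal.absNorm v.asIdeal).Prime ∧ (∀ i, Ideal.absNorm v.asIdeal ∉ S i)) ∧
      (∃ γ : GK K, IsFrob v γ ∧ ∀ i, (A i).Admissible γ) ∧ ¬ Good A S v) atTop (𝓝 0) := by
  classical
  have hun := dens_biUnion (Finset.univ.sigma (fun i : ι => Finset.range (A i).n))
    (fun x : (Σ _ : ι, ℕ) => (A x.1).Bad (S x.1) x.2) (fun x _ => bad_dens (hA x.1) x.2)
  refine squeeze_zero (fun N => dens_nonneg _ _) (fun N => dens_mono ?_ N) hun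
  rintro v ⟨⟨hv, hvS⟩, ⟨γ, ⟨Q, hQ, hQv, hγ⟩, hadm⟩, hnew⟩
  by_contra hcon
  apply hnew
  refine ⟨hv, hvS, Q, ⟨hQ, hQv⟩, ?_⟩
  intro i σ k hk hd
  apply hcon
  refine ⟨⟨i, k⟩, ?_, ⟨hv, hvS i⟩, Q, γ, σ, ⟨hQ, hQv⟩, hγ, hadm i, hk, hd⟩
  rw [Finset.mem_sigma]
  exact ⟨Finset.mem_univ _, Finset.mem_range.mpr hk.2.1⟩

include hA in
theorem adm_dens' : Tendsto (dens fun v : HeightOneSpectrum (𝓞 K) =>
    ∃ γ : GK K, IsFrob v γ ∧ ∀ i, (A i).Admissible γ) atTop (𝓝 (admProportion A)) := by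
  haveI := fixU_normal A
  haveI : Finite (GK K ⧸ fixU A) := Subgroup.quotient_finite_of_isOpen _ (fixU_open A)
  have h := chebK K (fixU A) (fixU_open A) {γ | ∀ i, (A i).Admissible γ}
    (fun σ hσ τ i => adm_conj (fun γ σ => ((hA i).isHodge σ).2.2.2.2 γ) τ (hσ i))
    (fun σ hσ u hu i => adm_fix A hu (hσ i))
  have e : (fun v : HeightOneSpectrum (𝓞 K) => ∃ σ ∈ {γ : GK K | ∀ i, (A i).Admissible γ}, IsFrob v σ) =
      fun v => ∃ γ : GK K, IsFrob v γ ∧ ∀ i, (A i).Admissible γ := by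
    funext v
    apply propext
    constructor
    · rintro ⟨σ, h1, h2⟩
      exact ⟨σ, h2, h1⟩
    · rintro ⟨σ, h1, h2⟩
      exact ⟨σ, h2, h1⟩
  rw [e] at h
  exact h

include hA in
theorem lower_good' (ε : ℝ) (hε : 0 < ε) :
    ∀ᶠ N : ℕ in atTop, admProportion A - ε ≤ dens (Good A S) N := by
  classical
  have hlim := adm_dens' A χ S hA
  have h1 := main_good' A χ S hA
  have h2 := dens_not_prime (K := K)
  have h3 := dens_finite _ (finite_norm_mem (K := K) (Finset.univ.biUnion S))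
  have e0 := hlim.eventually (lt_mem_nhds (show admProportion A - ε / 4 < admProportion A by linarith))
  have e1 := h1.eventually (gt_mem_nhds (show (0:ℝ) < ε / 4 by positivity))
  have e2 := h2.eventually (gt_mem_nhds (show (0:ℝ) < ε / 4 by positivity))
  have e3 := h3.eventually (gt_mem_nhds (show (0:ℝ) < ε / 4 by positivity))
  filter_upwards [e0, e1, e2, e3] with N h0 h1 h2 h3
  have hle : dens (fun v : HeightOneSpectrum (𝓞 K) => ∃ γ : GK K, IsFrob v γ ∧ ∀ i, (A i).Admissible γ) N ≤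
      dens (Good A S) N +
      (dens (fun v : HeightOneSpectrum (𝓞 K) =>
      ((Ideal.absNorm v.asIdeal).Prime ∧ (∀ i, Ideal.absNorm v.asIdeal ∉ S i)) ∧
      (∃ γ : GK K, IsFrob v γ ∧ ∀ i, (A i).Admissible γ) ∧ ¬ Good A S v) N +
      (dens (fun v : HeightOneSpectrum (𝓞 K) => ¬ (Ideal.absNorm v.asIdeal).Prime) N +
      dens (fun v : HeightOneSpectrum (𝓞 K) => Ideal.absNorm v.asIdeal ∈ Finset.univ.biUnion S) N)) := by
    refine le_trans (dens_mono (Q := fun v => _ ∨ (_ ∨ (_ ∨ _))) ?_ N)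
      (le_trans (dens_or _ _ N) (add_le_add_right (le_trans (dens_or _ _ N)
        (add_le_add_right (dens_or _ _ N) _)) _))
    intro v hv
    by_cases hp : (Ideal.absNorm v.asIdeal).Prime
    · by_cases hS : Ideal.absNorm v.asIdeal ∈ Finset.univ.biUnion S
      · exact Or.inr (Or.inr (Or.inr hS))
      · by_cases hd : Good A S v
        · exact Or.inl hd
        · refine Or.inr (Or.inl ⟨⟨hp, fun i hi => hS ?_⟩, hv, hd⟩)
          exact Finset.mem_biUnion.mpr ⟨i, Finset.mem_univ _, hi⟩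
    · exact Or.inr (Or.inr (Or.inl hp))
  linarith

include hA in
theorem tens_norm' {v : HeightOneSpectrum (𝓞 K)} (hv : ∀ i, IsDeg1 (S i) v)
    {Q : Ideal (𝓞 (AlgebraicClosure K))} (hQ : IsOver Q v) {p : ℕ} [Fact p.Prime]
    (hpe : Ideal.absNorm v.asIdeal = p) {τ : AlgebraicClosure K →+* PadicAlgCl p}
    (hτ : ∀ x : 𝓞 (AlgebraicClosure K), x ∈ Q ↔ ‖τ (x : AlgebraicClosure K)‖ < 1)
    (hno : NoExcess A v Q) (w : List (Piece A)) :
    (tensRoots A v w).map (fun y => ‖τ y‖) = (tensSlopes A w).map fun a => (1 / (p : ℝ)) ^ a := by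
  induction w with
  | nil => simp [tensRoots, tensSlopes]
  | cons x w ih =>
    have h1 := MotSystem.roots_part (hA x.1) (hv x.1) hQ hpe hτ x.2 (fun k hk => hno x.1 x.2 k hk)
    have h2 : (((A x.1).poly v x.2).roots).map (fun y => ‖τ y‖) =
        (((A x.1).h x.2 : Multiset ℕ)).map fun a => (1 / (p : ℝ)) ^ a := by
      rw [← h1]
      have e : (A x.1).poly v (τ.comp x.2) = ((A x.1).poly v x.2).map τ := by
        unfold MotSystem.poly
        rw [Polynomial.map_map]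
        rfl
      rw [e, Splits.roots_map (IsAlgClosed.splits _), Multiset.map_map]
      rfl
    unfold tensRoots tensSlopes
    rw [Multiset.map_map, Multiset.map_map]
    have e1 : ((fun y => ‖τ y‖) ∘ fun y : AlgebraicClosure K × AlgebraicClosure K => y.1 * y.2) =
        (fun z : ℝ × ℝ => z.1 * z.2) ∘ fun y => (‖τ y.1‖, ‖τ y.2‖) := by
      funext y
      simp [map_mul, norm_mul]
    have e2 : ((fun a => (1 / (p : ℝ)) ^ a) ∘ fun y : ℕ × ℕ => y.1 + y.2) =
        (fun z : ℝ × ℝ => z.1 * z.2) ∘ fun y => ((1 / (p : ℝ)) ^ y.1, (1 / (p : ℝ)) ^ y.2) := by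
      funext y
      simp only [Function.comp, pow_add]
    rw [e1, e2, ← Multiset.map_map, ← Multiset.map_map,
      map_product (fun y => ‖τ y‖) (fun y => ‖τ y‖),
      map_product (fun a : ℕ => (1 / (p : ℝ)) ^ a) (fun a : ℕ => (1 / (p : ℝ)) ^ a), h2, ih]

end family

section down

variable {K₀ K : Type} [Field K₀] [NumberField K₀] [Field K] [NumberField K] [Algebra K₀ K]
    {ℓ : ℕ} [Fact ℓ.Prime] {ι : Type} [Fintype ι] (A : ι → MotSystem K ℓ)
    (χ : GK K →* (PadicAlgCl ℓ)ˣ) (S : ι → Finset ℕ) (hA : ∀ i, (A i).IsMotive χ (S i))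

include hA in
/-- a summand is ordinary at the places where all the pieces are ordinary; the summand has its own
finite set `T` of bad residue characteristics -/
theorem newton_of_good' {T : Finset ℕ} {F : HeightOneSpectrum (𝓞 K₀) → ℤ[X]} {H : Multiset ℕ}
    (hF : IsSummand A T F H) (v₀ : HeightOneSpectrum (𝓞 K₀)) (v : HeightOneSpectrum (𝓞 K))
    (h0 : v.asIdeal.comap (algebraMap (𝓞 K₀) (𝓞 K)) = v₀.asIdeal) (hv : Good A S v)
    (hvT : Ideal.absNorm v.asIdeal ∉ T) :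
    NewtonSlopes (Ideal.absNorm v₀.asIdeal) (F v₀) H := by
  obtain ⟨hv1, hvS, Q, hQ, hno⟩ := hv
  obtain ⟨j, W, F', H', hsl, hsum⟩ := hF
  obtain ⟨hs, hab⟩ := hsum v₀ v h0 ⟨hv1, hvT⟩
  obtain ⟨ha, ha'⟩ := hab Q hQ
  rw [under_norm v hv1 v₀ h0]
  obtain ⟨p, hpe⟩ : ∃ p, Ideal.absNorm v.asIdeal = p := ⟨_, rfl⟩
  have hpp : p.Prime := hpe ▸ hv1
  haveI : Fact p.Prime := ⟨hpp⟩
  have hpQ := norm_mem hv1 hQ.2
  rw [hpe] at hpQ hs ha ha' ⊢
  obtain ⟨τ, hτ⟩ := exists_tau (p := p) Q hQ.1 hpQ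
  have key := summand hτ j ha ha' ((W.map (tensRoots A v)).sum) ((W.map (tensSlopes A)).sum) ?_ hs hsl
  · refine ⟨inferInstance, ?_⟩
    rw [← key]
    have e : (F v₀).map (Int.castRingHom (PadicAlgCl p)) =
        ((((F v₀).map (Int.castRingHom (𝓞 (AlgebraicClosure K)))).map
          (algebraMap (𝓞 (AlgebraicClosure K)) (AlgebraicClosure K)))).map τ := by
      rw [Polynomial.map_map, Polynomial.map_map]
      congr 1
      exact (RingHom.ext_int _ _)
    rw [e, Splits.roots_map (IsAlgClosed.splits _), Multiset.map_map]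
    rfl
  · rw [map_list_sum, map_list_sum, List.map_map, List.map_map]
    congr 1
    apply List.map_congr_left
    intro w _
    exact tens_norm' A χ S hA (fun i => ⟨hv1, hvS i⟩) hQ hpe hτ hno w

/-- at most `[K : K₀]` places of `K` lie over a place of `K₀` -/
theorem over_le' (v₀ : HeightOneSpectrum (𝓞 K₀)) :
    {v : HeightOneSpectrum (𝓞 K) | v.asIdeal.comap (algebraMap (𝓞 K₀) (𝓞 K)) = v₀.asIdeal}.Finite ∧
    {v : HeightOneSpectrum (𝓞 K) |
      v.asIdeal.comap (algebraMap (𝓞 K₀) (𝓞 K)) = v₀.asIdeal}.ncard ≤ Module.finrank K₀ K := by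
  classical
  haveI hmax : v₀.asIdeal.IsMaximal := v₀.isMaximal
  have hne : v₀.asIdeal ≠ ⊥ := v₀.ne_bot
  have hsub : HeightOneSpectrum.asIdeal '' {v : HeightOneSpectrum (𝓞 K) |
      v.asIdeal.comap (algebraMap (𝓞 K₀) (𝓞 K)) = v₀.asIdeal} ⊆
      (IsDedekindDomain.primesOverFinset v₀.asIdeal (𝓞 K) : Set (Ideal (𝓞 K))) := by
    rintro I ⟨v, hv, rfl⟩
    rw [Finset.mem_coe, IsDedekindDomain.mem_primesOverFinset_iff hne]
    exact ⟨v.isPrime, ⟨hv.symm⟩⟩
  have hinj : Set.InjOn HeightOneSpectrum.asIdeal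
      {v : HeightOneSpectrum (𝓞 K) | v.asIdeal.comap (algebraMap (𝓞 K₀) (𝓞 K)) = v₀.asIdeal} :=
    fun v _ w _ h => HeightOneSpectrum.ext h
  refine ⟨Set.Finite.of_finite_image ((Finset.finite_toSet _).subset hsub) hinj, ?_⟩
  rw [← Set.ncard_image_of_injOn hinj]
  refine (Set.ncard_le_ncard hsub (Finset.finite_toSet _)).trans ?_
  rw [Set.ncard_coe_finset]
  haveI : NoZeroSMulDivisors (𝓞 K₀) (𝓞 K) := by
    constructor
    intro a x h
    rw [Algebra.smul_def, mul_eq_zero] at h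
    rcases h with h | h
    · left
      exact (FaithfulSMul.algebraMap_injective (𝓞 K₀) (𝓞 K)) (by rw [h, map_zero])
    · exact Or.inr h
  exact Ideal.card_primesOverFinset_le_finrank (𝓞 K) K₀ K hne

/-- counting places of degree one above and below -/
theorem dens_under' (P : HeightOneSpectrum (𝓞 K) → Prop) (P₀ : HeightOneSpectrum (𝓞 K₀) → Prop)
    (hP : ∀ v, P v → (Ideal.absNorm v.asIdeal).Prime)
    (hPP : ∀ v v₀, P v → v.asIdeal.comap (algebraMap (𝓞 K₀) (𝓞 K)) = v₀.asIdeal → P₀ v₀) (N : ℕ) :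
    dens P N ≤ (Module.finrank K₀ K : ℝ) * dens P₀ N := by
  classical
  unfold dens
  rw [mul_div_assoc']
  apply div_le_div_of_nonneg_right _ (Nat.cast_nonneg _)
  have hf : {v : HeightOneSpectrum (𝓞 K) | Ideal.absNorm v.asIdeal ≤ N ∧ P v}.Finite :=
    (Pool.Agent.W352.ChAbs.finite_le (K := K) N).subset (fun v hv => hv.1)
  have hf0 : {v : HeightOneSpectrum (𝓞 K₀) | Ideal.absNorm v.asIdeal ≤ N ∧ P₀ v}.Finite :=
    (Pool.Agent.W352.ChAbs.finite_le (K := K₀) N).subset (fun v hv => hv.1)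
  obtain ⟨f, hf1⟩ : ∃ f : HeightOneSpectrum (𝓞 K) → HeightOneSpectrum (𝓞 K₀), ∀ v, P v →
      v.asIdeal.comap (algebraMap (𝓞 K₀) (𝓞 K)) = (f v).asIdeal ∧
      Ideal.absNorm (f v).asIdeal = Ideal.absNorm v.asIdeal := by
    by_cases hne : Nonempty (HeightOneSpectrum (𝓞 K₀))
    · obtain ⟨w⟩ := hne
      refine ⟨fun v => if h : P v then (exists_under (K₀ := K₀) v (hP v h)).choose else w, fun v hv => ?_⟩
      simp only [dif_pos hv]
      exact (exists_under (K₀ := K₀) v (hP v hv)).choose_spec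
    · obtain ⟨v, hv, -⟩ := exists_good (K := K₀) ∅
      exact absurd ⟨v⟩ hne
  have key : hf.toFinset.card ≤ Module.finrank K₀ K * hf0.toFinset.card := by
    have h1 : hf.toFinset.card ≤ Module.finrank K₀ K * (hf.toFinset.image f).card := by
      apply Finset.card_le_mul_card_image
      intro b hb
      obtain ⟨v, hv, rfl⟩ := Finset.mem_image.mp hb
      rw [Set.Finite.mem_toFinset] at hv
      have h2 := over_le' (K := K) (f v)
      refine le_trans ?_ h2.2
      rw [← Set.ncard_coe_finset]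
      apply Set.ncard_le_ncard _ h2.1
      intro w hw
      rw [Finset.mem_coe, Finset.mem_filter, Set.Finite.mem_toFinset] at hw
      have e1 := (hf1 w hw.1.2).1
      rw [hw.2] at e1
      exact e1
    refine h1.trans (Nat.mul_le_mul_left _ (Finset.card_le_card ?_))
    intro b hb
    obtain ⟨v, hv, rfl⟩ := Finset.mem_image.mp hb
    rw [Set.Finite.mem_toFinset] at hv ⊢
    exact ⟨by rw [(hf1 v hv.2).2]; exact hv.1, hPP v _ hv.2 (hf1 v hv.2).1⟩
  have e1 : Nat.card {v : HeightOneSpectrum (𝓞 K) // Ideal.absNorm v.asIdeal ≤ N ∧ P v} =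
      hf.toFinset.card := Set.ncard_eq_toFinset_card _ hf
  have e2 : Nat.card {v : HeightOneSpectrum (𝓞 K₀) // Ideal.absNorm v.asIdeal ≤ N ∧ P₀ v} =
      hf0.toFinset.card := Set.ncard_eq_toFinset_card _ hf0
  rw [e1, e2]
  exact_mod_cast key

/-- the places of `K₀` below the good places of `K` -/
def Below (K₀ : Type) {K : Type} [Field K₀] [NumberField K₀] [Field K] [NumberField K] [Algebra K₀ K]
    {ℓ : ℕ} [Fact ℓ.Prime] {ι : Type} (A : ι → MotSystem K ℓ) (S : ι → Finset ℕ)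
    (v₀ : HeightOneSpectrum (𝓞 K₀)) : Prop :=
  ∃ v : HeightOneSpectrum (𝓞 K), v.asIdeal.comap (algebraMap (𝓞 K₀) (𝓞 K)) = v₀.asIdeal ∧
    (Ideal.absNorm v.asIdeal).Prime ∧ (∀ i, Ideal.absNorm v.asIdeal ∉ S i) ∧
    ∃ Q : Ideal (𝓞 (AlgebraicClosure K)), IsOver Q v ∧ NoExcess A v Q

include hA in
/-- the lower density of the places of `K₀` below good places -/
theorem lower_below : admProportion A / (Module.finrank K₀ K : ℝ) ≤
    lowerDensity (Below K₀ A S) := by
  haveI : FiniteDimensional K₀ K := Module.Finite.of_restrictScalars_finite ℚ K₀ K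
  have hd : (0 : ℝ) < (Module.finrank K₀ K : ℝ) := by exact_mod_cast Module.finrank_pos
  apply lowerDensity_ge
  intro ε hε
  filter_upwards [lower_good' A χ S hA (ε * (Module.finrank K₀ K : ℝ)) (by positivity)] with N hN
  have h1 := dens_under' (K₀ := K₀) (Good A S) (Below K₀ A S) (fun v hv => hv.1)
    (fun v v₀ hv h0 => ⟨v, h0, hv⟩) N
  rw [div_sub' hd.ne', div_le_iff₀ hd]
  linarith [mul_comm (Module.finrank K₀ K : ℝ) (dens (Below K₀ A S) N),
    mul_comm (Module.finrank K₀ K : ℝ) ε]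

end down

end Pool.Agent.W850.Ord
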