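import Pool.Agent.W850.Ord.Diag

/-! Removing finitely many places does not change the lower density. -/

set_option autoImplicit false
set_option linter.all false

namespace Pool.Agent.W850.Ord

open NumberField IsDedekindDomain Polynomial Filter Topology
open Pool.Agent.W401.Cheb Pool.Agent.W528.Ord Pool.Agent.R915.Ord

/-- removing finitely many places does not change the lower density -/
theorem lowerDensity_le_of_finite {K : Type} [Field K] [NumberField K]
    (P P' : HeightOneSpectrum (𝓞 K) → Prop) (T : Finset ℕ)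
    (h : ∀ v, P v → Ideal.absNorm v.asIdeal ∉ T → P' v) : lowerDensity P ≤ lowerDensity P' := by
  apply le_of_forall_pos_le_add
  intro ε hε
  rw [← sub_le_iff_le_add]
  unfold lowerDensity
  refine le_liminf_of_le (cobdd P') ?_
  have h3 := dens_finite _ (finite_norm_mem (K := K) T)
  have h4 := ratio_tendsto _ _ h3
  have h5 := h4.eventually (gt_mem_nhds (show (0:ℝ) < ε / 2 by positivity))
  have h6 : liminf (ratio P) atTop - ε / 2 < liminf (ratio P) atTop := by linarith
  filter_upwards [eventually_lt_of_lt_liminf h6 (bdd_below P), h5] with N hN hN5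
  have h7 : ratio P N ≤ ratio P' N + ratio (fun v : HeightOneSpectrum (𝓞 K) => Ideal.absNorm v.asIdeal ∈ T) N := by
    unfold ratio
    rw [← add_div]
    apply div_le_div_of_nonneg_right _ (Nat.cast_nonneg _)
    have hsub : {v : HeightOneSpectrum (𝓞 K) | Ideal.absNorm v.asIdeal ≤ N ∧ P v} ⊆
        {v : HeightOneSpectrum (𝓞 K) | Ideal.absNorm v.asIdeal ≤ N ∧ P' v} ∪
        {v : HeightOneSpectrum (𝓞 K) | Ideal.absNorm v.asIdeal ≤ N ∧ Ideal.absNorm v.asIdeal ∈ T} := by
      rintro v ⟨hv, hP⟩
      by_cases hT : Ideal.absNorm v.asIdeal ∈ T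
      · exact Or.inr ⟨hv, hT⟩
      · exact Or.inl ⟨hv, h v hP hT⟩
    have hf := Pool.Agent.W352.ChAbs.finite_le (K := K) N
    have h8 := (Set.ncard_le_ncard hsub ((hf.subset fun v hv => hv.1).union
      (hf.subset fun v hv => hv.1))).trans (Set.ncard_union_le _ _)
    exact_mod_cast h8
  linarith

end Pool.Agent.W850.Ord
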